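import Pool.Agent.Y907.HM.Main

set_option autoImplicit false
open Filter
open scoped ENNReal Topology

namespace Pool.Agent.Results.MP_3013d0_nt.DivergenceCase

/-- distance from a real number to the nearest integer -/
noncomputable def distInt (t : ℝ) : ℝ := |t - round t|

/-- sup norm `max_j |q_j|` of an integer vector -/
def supNorm {m : ℕ} (q : Fin m → ℤ) : ℕ := Finset.univ.sup fun j => (q j).natAbs

/-- The set `W_{Ψ,θ}` in `[0,1]^{md}`. A point `X` has coordinates `X (i, j)`, the `j`-th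
coordinate of the vector `x^{(i)}`. It consists of the points for which infinitely many nonzero
integer vectors `q` satisfy `∏_i ‖q·x^{(i)} - θ_i‖ < Ψ(q)`. -/
def W (m d : ℕ) (Ψ : (Fin m → ℤ) → ℝ) (θ : Fin d → ℝ) :
    Set (EuclideanSpace ℝ (Fin d × Fin m)) :=
  {X | (∀ a, X a ∈ Set.Icc (0:ℝ) 1) ∧
    {q : Fin m → ℤ | q ≠ 0 ∧ ∏ i, distInt (∑ j, (q j : ℝ) * X (i, j) - θ i) < Ψ q}.Infinite}

/-- dimension functions: positive, continuous and increasing on the positive reals, with limit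
zero at zero -/
structure IsDimFun (f : ℝ → ℝ) : Prop where
  pos : ∀ x, 0 < x → 0 < f x
  cont : ContinuousOn f (Set.Ioi 0)
  mono : MonotoneOn f (Set.Ioi 0)
  lim : Tendsto f (𝓝[>] 0) (𝓝 0)

/-- condition (A) -/
def CondA (m d : ℕ) (f : ℝ → ℝ) : Prop :=
  ∃ s C : ℝ, (m * d : ℝ) - 1 < s ∧ s < (m * d : ℝ) ∧ 0 < C ∧
    ∀ x y, 0 < x → x < y → f y ≤ C * (y / x) ^ s * f x

open Classical in
/-- `f(diam B)` for a set `B` of finite diameter, read as `0 = f(0+)` when the diameter is `0` -/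
noncomputable def fdiam {E : Type} [PseudoEMetricSpace E] (f : ℝ → ℝ) (B : Set E) : ℝ≥0∞ :=
  if Metric.ediam B = 0 then 0 else ENNReal.ofReal (f (Metric.ediam B).toReal)

/-- The Hausdorff measure `H^f(S) = lim_{ρ→0} inf ∑ f(diam B_i)`, the infimum over the countable
covers of `S` by sets of diameter at most `ρ` (the limit is a supremum). -/
noncomputable def hausdorffMeas {E : Type} [PseudoEMetricSpace E] (f : ℝ → ℝ) (S : Set E) : ℝ≥0∞ :=
  ⨆ (ρ : ℝ) (_ : 0 < ρ), ⨅ (B : ℕ → Set E) (_ : S ⊆ ⋃ i, B i)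
    (_ : ∀ i, Metric.ediam (B i) ≤ ENNReal.ofReal ρ), ∑' i, fdiam f (B i)

open Classical in
/-- The sum `Σ(Ψ,f)` over the nonzero integer vectors of
`|q|^{md} Ψ(q)^{1-md} f(Ψ(q)/|q|)`, terms with `Ψ(q) = 0` being omitted. -/
noncomputable def Sig (m d : ℕ) (Ψ : (Fin m → ℤ) → ℝ) (f : ℝ → ℝ) : ℝ≥0∞ :=
  ∑' q : Fin m → ℤ, if q = 0 ∨ Ψ q = 0 then 0 else
    ENNReal.ofReal ((supNorm q : ℝ) ^ (m * d) * (Ψ q) ^ (1 - ((m * d : ℕ) : ℤ)) *
      f (Ψ q / supNorm q))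

/-- Divergence case: if `Ψ(q) = ψ(|q|)` with `ψ` non-increasing, `f` is a dimension function with
(A), `x^{1-md} f(x)` is increasing and `Σ(Ψ,f) = ∞`, then `H^f(W_{Ψ,θ}) = ∞`. -/
theorem result (m d : ℕ) (hm : 1 ≤ m) (hd : 1 ≤ d) (θ : Fin d → ℝ)
    (_hθ : ∀ i, θ i ∈ Set.Icc (0:ℝ) 1) (ψ : ℕ → ℝ) (hψ0 : ∀ r, 0 ≤ ψ r)
    (hψ : ∀ r s, 1 ≤ r → r ≤ s → ψ s ≤ ψ r) (f : ℝ → ℝ) (hf : IsDimFun f) (hA : CondA m d f)
    (hinc : MonotoneOn (fun x : ℝ => x ^ (1 - ((m * d : ℕ) : ℤ)) * f x) (Set.Ioi 0))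
    (hdiv : Sig m d (fun q => ψ (supNorm q)) f = ⊤) :
    hausdorffMeas f (W m d (fun q => ψ (supNorm q)) θ) = ⊤ := by
  classical
  obtain ⟨s, C, hs1, hs2, -, hsC⟩ := hA
  have hn : 1 ≤ m * d := Nat.mul_pos hm hd
  have hpow : ∀ x : ℝ, 0 < x → x ^ (1 - ((m * d : ℕ) : ℤ)) * f x = f x / x ^ (m * d - 1) := by
    intro x hx
    have h1 : (1 - ((m * d : ℕ) : ℤ)) = -((m * d - 1 : ℕ) : ℤ) := by
      rw [Nat.cast_sub hn]
      ring
    rw [h1, zpow_neg, zpow_natCast]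
    field_simp
  have hinc' : ∀ x y : ℝ, 0 < x → x ≤ y → f x / x ^ (m * d - 1) ≤ f y / y ^ (m * d - 1) := by
    intro x y hx hxy
    have hy : 0 < y := hx.trans_le hxy
    have := hinc (Set.mem_Ioi.2 hx) (Set.mem_Ioi.2 hy) hxy
    simp only at this
    rwa [hpow x hx, hpow y hy] at this
  have hsum : ∑' q : Fin m → ℤ, (if q = 0 ∨ ψ (Y907.HM.supN q) = 0 then 0 else
      ENNReal.ofReal ((Y907.HM.supN q : ℝ) * (f (ψ (Y907.HM.supN q) / Y907.HM.supN q) /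
        (ψ (Y907.HM.supN q) / Y907.HM.supN q) ^ (m * d - 1)))) = ⊤ := by
    rw [← hdiv]
    unfold Sig
    refine tsum_congr fun q => ?_
    have hsN : Y907.HM.supN q = supNorm q := rfl
    simp only [hsN]
    by_cases h : q = 0 ∨ ψ (supNorm q) = 0
    · rw [if_pos h, if_pos h]
    · rw [if_neg h, if_neg h]
      push Not at h
      have hq : 0 < supNorm q := Y907.HM.supN_pos h.1
      have hqR : (0:ℝ) < supNorm q := by exact_mod_cast hq
      have hψq : 0 < ψ (supNorm q) := lt_of_le_of_ne (hψ0 _) (Ne.symm h.2)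
      congr 1
      have h1 : (1 - ((m * d : ℕ) : ℤ)) = -((m * d - 1 : ℕ) : ℤ) := by
        rw [Nat.cast_sub hn]
        ring
      have h2 : (supNorm q : ℝ) ^ (m * d) = (supNorm q : ℝ) ^ (m * d - 1) * supNorm q := by
        rw [← pow_succ, Nat.sub_add_cancel hn]
      rw [h1, zpow_neg, zpow_natCast, h2, div_pow]
      field_simp
  have hcast : ((m * d : ℕ) : ℝ) = (m * d : ℝ) := by push_cast; ring
  refine ENNReal.eq_top_of_forall_nnreal_le fun F => ?_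
  obtain ⟨ρ, hρ0, hρ⟩ := Y907.HM.cover_lower hm hd θ ψ hψ0 hψ hf.pos hf.lim
    (by rw [hcast]; exact hs1) (by rw [hcast]; exact hs2) hsC hinc' hsum F F.2
  rw [ENNReal.ofReal_coe_nnreal] at hρ
  unfold hausdorffMeas
  refine le_iSup₂_of_le ρ hρ0 ?_
  exact le_iInf fun B => le_iInf fun hB => le_iInf fun hd' => hρ B hd' hB

end Pool.Agent.Results.MP_3013d0_nt.DivergenceCase
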